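import Mathlib
import Pool.Agent.helper22.Final

set_option autoImplicit false

namespace Pool.Agent.Results.MP_bf81c2_nt.GeneralBaseLower

/-- For every number field `K` and every `n ≥ 2`, writing `p` for the least prime factor of `n`,
the number of degree-`n` subextensions `L` of an algebraic closure of `K` with absolute
discriminant at most `X` is at least `c * X ^ (1/2 + 1/p)` for all large `X`, where `c > 0`
depends only on `K` and `n`.

Proof idea: for a subfield `F` with `[F : K] = n / p`, count monic Eisenstein polynomials of
degree `p` over the integers of `F` with roots of size at most `H`; a doubling inequality for the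
lattice of integers of `L`, together with the trivial bound for the number of fields having a
small generator, shows that for a positive proportion of these polynomials the field determines
the polynomial up to translation and boundedly many choices. -/
theorem result : ∀ (K : Type) [Field K] [NumberField K] (n : ℕ), 2 ≤ n →
    ∃ c : ℝ, 0 < c ∧ ∀ᶠ X : ℝ in Filter.atTop,
      c * X ^ ((1 : ℝ) / 2 + 1 / (n.minFac : ℝ)) ≤
        ((Set.ncard {L : IntermediateField K (AlgebraicClosure K) |
          Module.finrank K L = n ∧
            ∃ h : NumberField L, ((|@NumberField.discr L _ h| : ℤ) : ℝ) ≤ X} : ℕ) : ℝ) := by
  intro K _ _ n hn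
  exact Pool.Agent.helper22.general_lower K n hn

end Pool.Agent.Results.MP_bf81c2_nt.GeneralBaseLower
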