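import Mathlib
import Pool.Agent.helper22.Uniform

set_option autoImplicit false

namespace Pool.Agent.Results.MP_bf81c2_nt.LargeIndexLower

open Pool.Agent.helper22

/-- For every number field `K` and every `n` whose least prime factor `p` is at least `29`, the
number of degree-`n` subextensions `L` of an algebraic closure of `K` with absolute
discriminant at most `X` is at least `X ^ (1/2 + 4 / (3 * (p + 2 * √p - 5/2)))` for all large `X`.

Proof idea: count monic polynomials `f` of degree `p` over the integers of a subfield `F` of
degree `n / p` over `K`, with roots at most `H`, lying in the square of an ideal `(P, x - r)`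
with `P` a prime of norm about `H ^ (d p² / 8)`, where `d = [F : ℚ]`; then the discriminant of the
field is smaller than that of `f` by the factor `N(P)²`.  The lattices of such `f` are controlled
through products of pairs of short polynomials of degree `(p-1)/2` in `(P Q, x - r)`, where a
second large prime `Q` is made to ramify.  The ramification at `Q`, together with the linear
Cauchy-Davenport theorem, shows that the integers of size at most `H` in the field generated
by a root of `f` span a space of dimension at most `k ≈ 3 √p` over `F`, which bounds the number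
of times that each field is produced. -/
theorem result : ∀ (K : Type) [Field K] [NumberField K] (n : ℕ), 29 ≤ n.minFac →
    ∀ᶠ X : ℝ in Filter.atTop,
      X ^ ((1 : ℝ) / 2 + 4 / (3 * ((n.minFac : ℝ) + 2 * √(n.minFac : ℝ) - 5 / 2))) ≤
        ((Set.ncard {L : IntermediateField K (AlgebraicClosure K) |
          Module.finrank K L = n ∧
            ∃ h : NumberField L, ((|@NumberField.discr L _ h| : ℤ) : ℝ) ≤ X} : ℕ) : ℝ) := by
  intro K _ _ n hn
  have hn2 : 2 ≤ n := by
    rcases n with _ | _ | n
    · rw [Nat.minFac_zero] at hn; omega
    · rw [zero_add, Nat.minFac_one] at hn; omega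
    · omega
  have hp : n.minFac.Prime := Nat.minFac_prime (by omega)
  obtain ⟨j, hj⟩ : ∃ j, n.minFac = 2 * j + 1 := by
    rcases hp.eq_two_or_odd' with h | h
    · omega
    · exact h
  apply transfer_lower K n hn2
  intro F _ _
  rw [hj]
  have h1 : (4 : ℝ) / (3 * (((2 * j + 1 : ℕ) : ℝ) + 2 * √((2 * j + 1 : ℕ) : ℝ) - 5 / 2)) =
      1 / (3 / 4 * (((2 * j + 1 : ℕ) : ℝ) + 2 * √((2 * j + 1 : ℕ) : ℝ) - 5 / 2)) := by
    rw [div_mul_eq_mul_div, one_div_div]
  rw [h1]
  exact uniform_lower j (by omega) (by rw [← hj]; exact hp) F (AlgebraicClosure K)

end Pool.Agent.Results.MP_bf81c2_nt.LargeIndexLower
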